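import Pool.Agent.E8helper42.AZ.Stm

/-!
# Project AZ, part LA: a Lie algebra of matrices with a regular nilpotent element and a projection of rank one
-/

set_option autoImplicit false

namespace Pool.Agent.E8helper37.AZ

open Matrix Module

section Nilp

variable {n : ℕ} {K : Type} [Field K]

/-- iterates of a regular nilpotent matrix at a vector are independent -/
theorem iter_indep {N : Matrix (Fin n) (Fin n) K} (h0 : N ^ n = 0) {v : Fin n → K}
    (hv : (N ^ (n - 1)).mulVec v ≠ 0) :
    LinearIndependent K fun i : Fin n => (N ^ (i : ℕ)).mulVec v := by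
  rw [Fintype.linearIndependent_iff]
  intro g hg i
  obtain ⟨i, hi⟩ := i
  induction i using Nat.strong_induction_on with
  | _ i ih =>
    have h1 := congrArg (N ^ (n - 1 - i)).mulVec hg
    rw [Matrix.mulVec_zero] at h1
    have h1' : ∑ j : Fin n, (N ^ (n - 1 - i)).mulVec (g j • (N ^ (j : ℕ)).mulVec v) = 0 := by
      rw [← h1]
      exact (map_sum (N ^ (n - 1 - i)).mulVecLin _ _).symm
    rw [Finset.sum_eq_single (⟨i, hi⟩ : Fin n)] at h1'
    · rw [Matrix.mulVec_smul, Matrix.mulVec_mulVec, ← pow_add] at h1'
      have h2 : n - 1 - i + i = n - 1 := by omega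
      rw [h2] at h1'
      exact (smul_eq_zero.1 h1').resolve_right hv
    · intro j _ hj
      rcases lt_or_gt_of_ne (fun h => hj (Fin.ext h) : (j : ℕ) ≠ i) with h | h
      · rw [ih j h j.2, zero_smul, Matrix.mulVec_zero]
      · rw [Matrix.mulVec_smul, Matrix.mulVec_mulVec, ← pow_add, pow_eq_zero_of_le (by omega) h0,
          Matrix.zero_mulVec, smul_zero]
    · intro h
      exact absurd (Finset.mem_univ _) h

theorem comm_nil {N C : Matrix (Fin n) (Fin n) K} (h0 : N ^ n = 0) (h1 : N ^ (n - 1) ≠ 0)
    (hc : C * N = N * C) : ∃ a : K, (C - algebraMap K _ a) ^ n = 0 := by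
  obtain ⟨v, hv⟩ : ∃ v, (N ^ (n - 1)).mulVec v ≠ 0 := by
    by_contra hcon
    push Not at hcon
    apply h1
    apply Matrix.toLin'.injective
    apply LinearMap.ext
    intro v
    rw [Matrix.toLin'_apply, map_zero, LinearMap.zero_apply]
    exact hcon v
  have hli := iter_indep h0 hv
  have hsp := hli.span_eq_top_of_card_eq_finrank' (by simp)
  have hmem : C.mulVec v ∈ Submodule.span K (Set.range fun i : Fin n => (N ^ (i : ℕ)).mulVec v) := by
    rw [hsp]; exact Submodule.mem_top
  obtain ⟨a, ha⟩ := (Submodule.mem_span_range_iff_exists_fun K).1 hmem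
  set p : Polynomial K := ∑ i : Fin n, Polynomial.C (a i) * Polynomial.X ^ (i : ℕ) with hp
  have hpN : Polynomial.aeval N p = ∑ i : Fin n, a i • N ^ (i : ℕ) := by
    rw [hp, map_sum]
    refine Finset.sum_congr rfl fun i _ => ?_
    rw [map_mul, Polynomial.aeval_C, map_pow, Polynomial.aeval_X, ← Algebra.smul_def]
  have hpv : (Polynomial.aeval N p).mulVec v = C.mulVec v := by
    rw [hpN, ← ha, Matrix.sum_mulVec]
    exact Finset.sum_congr rfl fun i _ => Matrix.smul_mulVec _ _ _
  have hcomm : Commute (Polynomial.aeval N p) N := by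
    have h2 : Commute (Polynomial.aeval N p) (Polynomial.aeval N (Polynomial.X : Polynomial K)) :=
      (Commute.all p Polynomial.X).map (Polynomial.aeval N)
    rwa [Polynomial.aeval_X] at h2
  have hD : Commute (C - Polynomial.aeval N p) N := by
    have hCN : Commute C N := hc
    exact hCN.sub_left hcomm
  have hzero : C - Polynomial.aeval N p = 0 := by
    apply Matrix.toLin'.injective
    rw [map_zero]
    have h3 : ∀ x ∈ Submodule.span K (Set.range fun i : Fin n => (N ^ (i : ℕ)).mulVec v),
        (C - Polynomial.aeval N p).mulVec x = 0 := by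
      intro x hx
      induction hx using Submodule.span_induction with
      | mem x hx =>
        obtain ⟨i, rfl⟩ := hx
        show (C - Polynomial.aeval N p).mulVec ((N ^ (i : ℕ)).mulVec v) = 0
        rw [Matrix.mulVec_mulVec, (hD.pow_right i).eq, ← Matrix.mulVec_mulVec, Matrix.sub_mulVec, hpv,
          sub_self, Matrix.mulVec_zero]
      | zero => exact Matrix.mulVec_zero _
      | add x y _ _ hx hy => rw [Matrix.mulVec_add, hx, hy, add_zero]
      | smul c x _ hx => rw [Matrix.mulVec_smul, hx, smul_zero]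
    apply LinearMap.ext
    intro x
    rw [Matrix.toLin'_apply, LinearMap.zero_apply]
    exact h3 x (by rw [hsp]; exact Submodule.mem_top)
  refine ⟨p.coeff 0, ?_⟩
  have h4 : C - algebraMap K _ (p.coeff 0) = Polynomial.aeval N p.divX * N := by
    rw [sub_eq_zero.1 hzero]
    conv_lhs => rw [← Polynomial.divX_mul_X_add p]
    rw [map_add, map_mul, Polynomial.aeval_X, Polynomial.aeval_C]
    have : (Polynomial.divX p * Polynomial.X + Polynomial.C (p.coeff 0)).coeff 0 = p.coeff 0 := by
      rw [Polynomial.divX_mul_X_add]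
    rw [this, add_sub_cancel_right]
  rw [h4]
  have h5 : Commute (Polynomial.aeval N p.divX) N := by
    have h2 : Commute (Polynomial.aeval N p.divX) (Polynomial.aeval N (Polynomial.X : Polynomial K)) :=
      (Commute.all p.divX Polynomial.X).map (Polynomial.aeval N)
    rwa [Polynomial.aeval_X] at h2
  rw [h5.mul_pow, h0, mul_zero]

end Nilp

section

variable {n : ℕ} {F : Type} [Field F] [CharZero F]

omit [CharZero F] in
theorem map_span {h : Submodule F (Matrix (Fin n) (Fin n) F)} {K : Type} [Field K] [Algebra F K]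
    {c : Matrix (Fin n) (Fin n) F} (hc : ∀ M ∈ h, c * M = M * c) {N : Matrix (Fin n) (Fin n) K}
    (hN : N ∈ Submodule.span K ((fun M : Matrix (Fin n) (Fin n) F => M.map (algebraMap F K)) '' (h : Set _))) :
    c.map (algebraMap F K) * N = N * c.map (algebraMap F K) := by
  induction hN using Submodule.span_induction with
  | mem x hx =>
    obtain ⟨M, hM, rfl⟩ := hx
    show c.map (algebraMap F K) * M.map (algebraMap F K) = M.map (algebraMap F K) * c.map (algebraMap F K)
    rw [← Matrix.map_mul, ← Matrix.map_mul, hc M hM]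
  | zero => rw [mul_zero, zero_mul]
  | add x y _ _ hx hy => rw [mul_add, add_mul, hx, hy]
  | smul a x _ hx => rw [mul_smul_comm, smul_mul_assoc, hx]

/-- the commutant consists of scalars -/
theorem scalar_of_comm {K₀ : Type} [Field K₀] [Algebra F K₀]
    {h : Submodule F (Matrix (Fin n) (Fin n) F)}
    (hirr : ∀ U : Submodule F (Fin n → F), (∀ M ∈ h, ∀ u ∈ U, M.mulVec u ∈ U) → U = ⊥ ∨ U = ⊤)
    (hN : ∃ N ∈ Submodule.span K₀ ((fun M : Matrix (Fin n) (Fin n) F => M.map (algebraMap F K₀)) '' (h : Set _)),
      N ^ n = 0 ∧ N ^ (n - 1) ≠ 0)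
    (c : Matrix (Fin n) (Fin n) F) (hc : ∀ M ∈ h, c * M = M * c) :
    ∃ k : F, c = algebraMap F _ k := by
  obtain ⟨N, hNh, h0, h1⟩ := hN
  have hn : 0 < n := by
    by_contra hn
    have : n = 0 := by omega
    subst this
    exact h1 (Subsingleton.elim _ _)
  have hn0 : (n : F) ≠ 0 := by exact_mod_cast hn.ne'
  obtain ⟨a, ha⟩ := comm_nil h0 h1 (map_span hc hNh)
  have htr := Matrix.isNilpotent_trace_of_isNilpotent ⟨n, ha⟩
  have htr0 : (c.map (algebraMap F K₀) - algebraMap K₀ _ a).trace = 0 := htr.eq_zero
  have e1 : (c.map (algebraMap F K₀)).trace = algebraMap F K₀ c.trace := by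
    rw [Matrix.trace, Matrix.trace, map_sum]
    rfl
  have e2 : (algebraMap K₀ (Matrix (Fin n) (Fin n) K₀) a).trace = n * a := by
    rw [Algebra.algebraMap_eq_smul_one, Matrix.trace_smul, Matrix.trace_one, Fintype.card_fin, smul_eq_mul,
      mul_comm]
  rw [Matrix.trace_sub, e1, e2, sub_eq_zero] at htr0
  have hn1 : (n : K₀) ≠ 0 := by
    have : (algebraMap F K₀) (n : F) ≠ 0 := (map_ne_zero _).2 hn0
    rwa [map_natCast] at this
  have ha2 : a = algebraMap F K₀ (c.trace / n) := by
    rw [map_div₀, htr0, map_natCast, mul_comm, mul_div_assoc, div_self hn1, mul_one]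
  refine ⟨c.trace / n, ?_⟩
  set k := c.trace / n with hk
  have hnil : (c - algebraMap F _ k) ^ n = 0 := by
    have e3 : ((c - algebraMap F _ k) ^ n).map (algebraMap F K₀) = 0 := by
      rw [Matrix.map_pow]
      have : (c - algebraMap F (Matrix (Fin n) (Fin n) F) k).map (algebraMap F K₀) =
          c.map (algebraMap F K₀) - algebraMap K₀ _ a := by
        rw [Matrix.map_sub _ (fun x y => map_sub _ x y), ha2]
        congr 1
        ext i j
        rw [Matrix.map_apply, Matrix.algebraMap_matrix_apply, Matrix.algebraMap_matrix_apply]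
        split_ifs
        · rfl
        · rw [map_zero]
      rw [this, ha]
    apply Matrix.map_injective (algebraMap F K₀).injective
    show ((c - algebraMap F _ k) ^ n).map (algebraMap F K₀) = (0 : Matrix (Fin n) (Fin n) F).map (algebraMap F K₀)
    rw [e3]
    ext i j
    simp
  set U : Submodule F (Fin n → F) := LinearMap.ker (c - algebraMap F _ k).mulVecLin with hU
  have hst : ∀ M ∈ h, ∀ u ∈ U, M.mulVec u ∈ U := by
    intro M hM u hu
    rw [hU, LinearMap.mem_ker, Matrix.mulVecLin_apply] at hu ⊢
    have e4 : (c - algebraMap F _ k) * M = M * (c - algebraMap F _ k) := by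
      rw [sub_mul, mul_sub, hc M hM, Algebra.commutes]
    rw [Matrix.mulVec_mulVec, e4, ← Matrix.mulVec_mulVec, hu, Matrix.mulVec_zero]
  rcases hirr U hst with hb | ht
  · exfalso
    have hinj : Function.Injective (c - algebraMap F _ k).mulVecLin := LinearMap.ker_eq_bot.1 hb
    have hinj2 : ∀ m : ℕ, Function.Injective ((c - algebraMap F _ k) ^ m).mulVec := by
      intro m
      induction m with
      | zero =>
        intro x y hxy
        simpa using hxy
      | succ m ih =>
        intro x y hxy
        rw [pow_succ, ← Matrix.mulVec_mulVec, ← Matrix.mulVec_mulVec] at hxy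
        exact hinj (ih hxy)
    have h5 := hinj2 n
    rw [hnil] at h5
    have h6 : (fun _ : Fin n => (1 : F)) = 0 := h5 (by rw [Matrix.zero_mulVec, Matrix.zero_mulVec])
    exact one_ne_zero (congrFun h6 ⟨0, hn⟩)
  · rw [← sub_eq_zero]
    apply Matrix.toLin'.injective
    apply LinearMap.ext
    intro x
    rw [Matrix.toLin'_apply, map_zero, LinearMap.zero_apply]
    have : x ∈ U := by rw [ht]; exact Submodule.mem_top
    rw [hU, LinearMap.mem_ker, Matrix.mulVecLin_apply] at this
    exact this

/-- **Burnside's theorem** in the form needed here. -/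
theorem adjoin_eq_top (hn : 0 < n) {h : Submodule F (Matrix (Fin n) (Fin n) F)}
    (hirr : ∀ U : Submodule F (Fin n → F), (∀ M ∈ h, ∀ u ∈ U, M.mulVec u ∈ U) → U = ⊥ ∨ U = ⊤)
    (hcomm : ∀ c : Matrix (Fin n) (Fin n) F, (∀ M ∈ h, c * M = M * c) → ∃ k : F, c = algebraMap F _ k) :
    Algebra.adjoin F (h : Set (Matrix (Fin n) (Fin n) F)) = ⊤ := by
  set e : Matrix (Fin n) (Fin n) F ≃ₐ[F] Module.End F (Fin n → F) := Matrix.toLinAlgEquiv' with he
  set A : Subalgebra F (Module.End F (Fin n → F)) :=
    Algebra.adjoin F (e '' (h : Set (Matrix (Fin n) (Fin n) F))) with hA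
  have hmemA : ∀ M ∈ h, e M ∈ A := fun M hM => Algebra.subset_adjoin ⟨M, hM, rfl⟩
  classical
  have : Nonempty (Fin n) := ⟨⟨0, hn⟩⟩
  have hsimple : IsSimpleModule A (Fin n → F) := by
    refine (isSimpleModule_iff _ _).2 { exists_pair_ne := ?_, eq_bot_or_eq_top := ?_ }
    · refine ⟨⊥, ⊤, fun hbt => ?_⟩
      have h1 : (fun _ : Fin n => (1 : F)) ∈ (⊥ : Submodule A (Fin n → F)) := by
        rw [hbt]; exact Submodule.mem_top
      rw [Submodule.mem_bot] at h1
      exact one_ne_zero (congrFun h1 ⟨0, hn⟩)
    · intro U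
      have h1 := hirr (U.restrictScalars F) (fun M hM u hu => by
        have h2 : (⟨e M, hmemA M hM⟩ : A) • u ∈ U := U.smul_mem _ hu
        have h3 : (⟨e M, hmemA M hM⟩ : A) • u = M.mulVec u := rfl
        rw [h3] at h2
        exact h2)
      rcases h1 with h1 | h1
      · left
        rw [eq_bot_iff]
        intro x hx
        have : x ∈ U.restrictScalars F := hx
        rw [h1, Submodule.mem_bot] at this
        rw [Submodule.mem_bot, this]
      · right
        rw [eq_top_iff]
        intro x _
        have : x ∈ U.restrictScalars F := by rw [h1]; exact Submodule.mem_top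
        exact this
  have hend : ∀ g : Module.End A (Fin n → F), ∃ k : F, ∀ v, g v = k • v := by
    intro g
    have hg1 : ∀ (T : Module.End F (Fin n → F)) (hT : T ∈ A) (v : Fin n → F), g (T v) = T (g v) :=
      fun T hT v => g.map_smul (⟨T, hT⟩ : A) v
    obtain ⟨g', hg'⟩ : ∃ g' : Module.End F (Fin n → F), ∀ v, g' v = g v := by
      refine ⟨{ toFun := g, map_add' := g.map_add, map_smul' := fun a v => ?_ }, fun _ => rfl⟩
      have h2 := hg1 (algebraMap F _ a) (A.algebraMap_mem a) v
      rw [Module.algebraMap_end_apply, Module.algebraMap_end_apply] at h2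
      exact h2
    obtain ⟨k, hk⟩ := hcomm (e.symm g') (fun M hM => by
      apply e.injective
      rw [map_mul, map_mul, e.apply_symm_apply]
      apply LinearMap.ext
      intro v
      rw [Module.End.mul_apply, Module.End.mul_apply, hg', hg', hg1 _ (hmemA M hM)])
    refine ⟨k, fun v => ?_⟩
    have h3 : g' = algebraMap F _ k := by
      rw [← e.apply_symm_apply g', hk, AlgEquiv.commutes]
    rw [← hg', h3, Module.algebraMap_end_apply]
  have hAtop : ∀ T : Module.End F (Fin n → F), T ∈ A := by
    intro T
    let f : Module.End (Module.End A (Fin n → F)) (Fin n → F) :=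
      { toFun := T
        map_add' := T.map_add
        map_smul' := fun g v => by
          obtain ⟨k, hk⟩ := hend g
          show T (g v) = g (T v)
          rw [hk, hk, map_smul] }
    obtain ⟨r, hr⟩ := jacobson_density (R := A) f (Finset.univ.image (fun i : Fin n => (Pi.single i 1 : Fin n → F)))
    have h4 : T = (r : Module.End F (Fin n → F)) := by
      apply LinearMap.pi_ext'
      intro i
      apply LinearMap.ext_ring
      have h5 := hr (Pi.single i 1) (Finset.mem_image_of_mem _ (Finset.mem_univ i))
      exact h5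
    rw [h4]
    exact r.2
  rw [eq_top_iff]
  intro M _
  have h6 := hAtop (e M)
  have h7 : A = (Algebra.adjoin F (h : Set (Matrix (Fin n) (Fin n) F))).map e.toAlgHom := by
    rw [hA, AlgHom.map_adjoin]
    rfl
  rw [h7] at h6
  obtain ⟨M', hM', hMM⟩ := h6
  have : M' = M := e.injective hMM
  rw [← this]
  exact hM'

end

section Rank

variable {n : ℕ} {F K : Type} [Field F] [Field K] [Algebra F K]

theorem span_br {h : Submodule F (Matrix (Fin n) (Fin n) F)}
    (hbr : ∀ M ∈ h, ∀ M' ∈ h, M * M' - M' * M ∈ h) :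
    ∀ x ∈ Submodule.span K ((fun M : Matrix (Fin n) (Fin n) F => M.map (algebraMap F K)) '' (h : Set _)),
    ∀ y ∈ Submodule.span K ((fun M : Matrix (Fin n) (Fin n) F => M.map (algebraMap F K)) '' (h : Set _)),
    x * y - y * x ∈ Submodule.span K
      ((fun M : Matrix (Fin n) (Fin n) F => M.map (algebraMap F K)) '' (h : Set _)) := by
  intro x hx y hy
  induction hx using Submodule.span_induction with
  | mem x hx =>
    obtain ⟨M, hM, rfl⟩ := hx
    induction hy using Submodule.span_induction with
    | mem y hy =>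
      obtain ⟨M', hM', rfl⟩ := hy
      apply Submodule.subset_span
      refine ⟨M * M' - M' * M, hbr M hM M' hM', ?_⟩
      show (M * M' - M' * M).map (algebraMap F K) = M.map (algebraMap F K) * M'.map (algebraMap F K) -
        M'.map (algebraMap F K) * M.map (algebraMap F K)
      rw [Matrix.map_sub _ (fun x y => map_sub _ x y), Matrix.map_mul, Matrix.map_mul]
    | zero => rw [mul_zero, zero_mul, sub_zero]; exact Submodule.zero_mem _
    | add x y _ _ hx hy =>
      have := Submodule.add_mem _ hx hy
      convert this using 1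
      rw [mul_add, add_mul]; abel
    | smul a x _ hx =>
      have := Submodule.smul_mem _ a hx
      convert this using 1
      rw [mul_smul_comm, smul_mul_assoc, smul_sub]
  | zero => rw [mul_zero, zero_mul, sub_zero]; exact Submodule.zero_mem _
  | add x y _ _ hx hy =>
    have := Submodule.add_mem _ hx hy
    convert this using 1
    rw [mul_add, add_mul]; abel
  | smul a x _ hx =>
    have := Submodule.smul_mem _ a hx
    convert this using 1
    rw [mul_smul_comm, smul_mul_assoc, smul_sub]

/-- **Part LA.** -/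
theorem rank_one {h : Submodule F (Matrix (Fin n) (Fin n) F)} [CharZero F]
    (hbr : ∀ M ∈ h, ∀ M' ∈ h, M * M' - M' * M ∈ h)
    (hadj : Algebra.adjoin F (h : Set (Matrix (Fin n) (Fin n) F)) = ⊤) {f φ : Fin n → K}
    (hf : φ ⬝ᵥ f = 1) (hP : Matrix.vecMulVec f φ ∈
      Submodule.span K ((fun M : Matrix (Fin n) (Fin n) F => M.map (algebraMap F K)) '' (h : Set _))) :
    h = ⊤ := by
  classical
  have hb := span_br (K := K) hbr
  set G : Submodule K (Matrix (Fin n) (Fin n) K) :=
    Submodule.span K ((fun M : Matrix (Fin n) (Fin n) F => M.map (algebraMap F K)) '' (h : Set _)) with hG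
  set P : Matrix (Fin n) (Fin n) K := Matrix.vecMulVec f φ with hPd
  have h2 : (2 : K) ≠ 0 := by
    have h3 : (algebraMap F K) (2 : F) ≠ 0 := (map_ne_zero _).2 two_ne_zero
    rwa [map_ofNat] at h3
  have hmapG : ∀ M ∈ h, M.map (algebraMap F K) ∈ G := fun M hM => Submodule.subset_span ⟨M, hM, rfl⟩
  have hPy : ∀ y : Matrix (Fin n) (Fin n) K, P * y = Matrix.vecMulVec f (Matrix.vecMul φ y) := fun y => by
    rw [hPd, Matrix.vecMulVec_mul]
  have hPyP : ∀ y : Matrix (Fin n) (Fin n) K, P * y * P ∈ G := by
    intro y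
    rw [hPy, hPd, Matrix.vecMulVec_mul_vecMulVec, Matrix.vecMulVec_smul]
    exact Submodule.smul_mem _ _ hP
  have hPP : P * P = P := by
    rw [hPd, Matrix.vecMulVec_mul_vecMulVec, hf, one_smul]
  have hPyG : ∀ y ∈ G, P * y ∈ G := by
    intro y hy
    have h3 := hb P hP y hy
    have h4 := hb P hP _ h3
    have h5 := Submodule.add_mem _ (Submodule.add_mem _ h4 h3) (Submodule.smul_mem _ (2 : K) (hPyP y))
    have h6 : P * (P * y - y * P) - (P * y - y * P) * P + (P * y - y * P) + (2 : K) • (P * y * P) =
        (2 : K) • (P * y) := by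
      have e1 : P * (P * y) = P * y := by rw [← mul_assoc, hPP]
      have e2 : y * P * P = y * P := by rw [mul_assoc, hPP]
      rw [mul_sub, sub_mul, e1, e2, ← mul_assoc P y P, two_smul, two_smul]
      abel
    rw [h6] at h5
    have h7 := Submodule.smul_mem _ (2 : K)⁻¹ h5
    rwa [smul_smul, inv_mul_cancel₀ h2, one_smul] at h7
  -- the vectors `w` with `w φᵀ` in `G`
  have hW1 : ∀ w : Fin n → K, Matrix.vecMulVec w φ ∈ G → ∀ y ∈ G, Matrix.vecMulVec w (Matrix.vecMul φ y) ∈ G ∧
      Matrix.vecMulVec (y.mulVec w) φ ∈ G := by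
    intro w hw y hy
    have h3 : Matrix.vecMulVec f (Matrix.vecMul φ y) ∈ G := by rw [← hPy]; exact hPyG y hy
    have h4 := hb _ hw _ h3
    have h5 : Matrix.vecMulVec w φ * Matrix.vecMulVec f (Matrix.vecMul φ y) -
        Matrix.vecMulVec f (Matrix.vecMul φ y) * Matrix.vecMulVec w φ =
        Matrix.vecMulVec w (Matrix.vecMul φ y) - (Matrix.vecMul φ y ⬝ᵥ w) • Matrix.vecMulVec f φ := by
      rw [Matrix.vecMulVec_mul_vecMulVec, Matrix.vecMulVec_mul_vecMulVec, hf, one_smul, Matrix.vecMulVec_smul]
    rw [h5] at h4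
    have h6 := Submodule.add_mem _ h4 (Submodule.smul_mem _ (Matrix.vecMul φ y ⬝ᵥ w) hP)
    rw [sub_add_cancel] at h6
    refine ⟨h6, ?_⟩
    have h7 := Submodule.add_mem _ (hb _ hy _ hw) h6
    have h8 : y * Matrix.vecMulVec w φ - Matrix.vecMulVec w φ * y + Matrix.vecMulVec w (Matrix.vecMul φ y) =
        Matrix.vecMulVec (y.mulVec w) φ := by
      rw [Matrix.mul_vecMulVec, Matrix.vecMulVec_mul, sub_add_cancel]
    rwa [h8] at h7
  have hW2 : ∀ M : Matrix (Fin n) (Fin n) F, ∀ w : Fin n → K, Matrix.vecMulVec w φ ∈ G →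
      Matrix.vecMulVec ((M.map (algebraMap F K)).mulVec w) φ ∈ G := by
    intro M
    have hM : M ∈ Algebra.adjoin F (h : Set (Matrix (Fin n) (Fin n) F)) := by
      rw [hadj]; exact Algebra.mem_top
    induction hM using Algebra.adjoin_induction with
    | mem M hM => exact fun w hw => (hW1 w hw _ (hmapG M hM)).2
    | algebraMap a =>
      intro w hw
      have h3 : ((algebraMap F (Matrix (Fin n) (Fin n) F) a).map (algebraMap F K)).mulVec w =
          algebraMap F K a • w := by
        ext i
        rw [Matrix.mulVec, dotProduct, Finset.sum_eq_single i]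
        · rw [Matrix.map_apply, Matrix.algebraMap_matrix_apply, if_pos rfl]
          rfl
        · intro j _ hj
          rw [Matrix.map_apply, Matrix.algebraMap_matrix_apply, if_neg (Ne.symm hj), map_zero, zero_mul]
        · intro hi
          exact absurd (Finset.mem_univ _) hi
      rw [h3, Matrix.smul_vecMulVec]
      exact Submodule.smul_mem _ _ hw
    | add M M' _ _ ih ih' =>
      intro w hw
      rw [Matrix.map_add _ (fun x y => map_add _ x y), Matrix.add_mulVec, Matrix.add_vecMulVec]
      exact Submodule.add_mem _ (ih w hw) (ih' w hw)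
    | mul M M' _ _ ih ih' =>
      intro w hw
      rw [Matrix.map_mul, ← Matrix.mulVec_mulVec]
      exact ih _ (ih' w hw)
  have hf0 : ∃ j, f j ≠ 0 := by
    by_contra hcon
    push Not at hcon
    have : f = 0 := funext hcon
    rw [this, dotProduct_zero] at hf
    exact zero_ne_one hf
  have hsingle : ∀ (i j : Fin n) (w : Fin n → K),
      ((Matrix.single i j (1 : F)).map (algebraMap F K)).mulVec w = w j • Pi.single i (1 : K) := by
    intro i j w
    ext k
    rw [Matrix.mulVec, dotProduct, Finset.sum_eq_single j]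
    · rw [Matrix.map_apply, Pi.smul_apply, smul_eq_mul]
      by_cases hk : k = i
      · subst hk
        rw [Matrix.single_apply_same, map_one, Pi.single_eq_same, mul_comm]
      · rw [Matrix.single_apply_of_row_ne (Ne.symm hk), map_zero, Pi.single_eq_of_ne hk, zero_mul, mul_zero]
    · intro l _ hl
      rw [Matrix.map_apply, Matrix.single_apply_of_col_ne _ _ (Ne.symm hl), map_zero, zero_mul]
    · intro hi
      exact absurd (Finset.mem_univ _) hi
  have hW3 : ∀ w : Fin n → K, Matrix.vecMulVec w φ ∈ G := by
    intro w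
    obtain ⟨j, hj⟩ := hf0
    have h3 : ∀ i : Fin n, Matrix.vecMulVec (Pi.single i (1 : K)) φ ∈ G := by
      intro i
      have h4 := hW2 (Matrix.single i j 1) f hP
      rw [hsingle, Matrix.smul_vecMulVec] at h4
      have h5 := Submodule.smul_mem _ (f j)⁻¹ h4
      rwa [smul_smul, inv_mul_cancel₀ hj, one_smul] at h5
    have h6 : Matrix.vecMulVec w φ = ∑ i, w i • Matrix.vecMulVec (Pi.single i (1 : K)) φ := by
      ext a b
      rw [Matrix.sum_apply, Finset.sum_eq_single a]
      · rw [Matrix.smul_apply, Matrix.vecMulVec_apply, Matrix.vecMulVec_apply, Pi.single_eq_same, one_mul,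
          smul_eq_mul]
      · intro i _ hi
        rw [Matrix.smul_apply, Matrix.vecMulVec_apply, Pi.single_eq_of_ne (Ne.symm hi), zero_mul, smul_zero]
      · intro hi
        exact absurd (Finset.mem_univ _) hi
    rw [h6]
    exact Submodule.sum_mem _ fun i _ => Submodule.smul_mem _ _ (h3 i)
  -- the vectors `ψ` with `w ψᵀ` in `G` for all `w`
  have hV1 : ∀ ψ : Fin n → K, (∀ w, Matrix.vecMulVec w ψ ∈ G) → ∀ y ∈ G, ∀ w,
      Matrix.vecMulVec w (Matrix.vecMul ψ y) ∈ G := by
    intro ψ hψ y hy w
    have h3 := Submodule.add_mem _ (hb _ (hψ w) _ hy) (hψ (y.mulVec w))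
    rwa [Matrix.mul_vecMulVec, Matrix.vecMulVec_mul, sub_add_cancel] at h3
  have hV2 : ∀ M : Matrix (Fin n) (Fin n) F, ∀ ψ : Fin n → K, (∀ w, Matrix.vecMulVec w ψ ∈ G) → ∀ w,
      Matrix.vecMulVec w (Matrix.vecMul ψ (M.map (algebraMap F K))) ∈ G := by
    intro M
    have hM : M ∈ Algebra.adjoin F (h : Set (Matrix (Fin n) (Fin n) F)) := by
      rw [hadj]; exact Algebra.mem_top
    induction hM using Algebra.adjoin_induction with
    | mem M hM => exact fun ψ hψ => hV1 ψ hψ _ (hmapG M hM)
    | algebraMap a =>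
      intro ψ hψ w
      have h3 : Matrix.vecMul ψ ((algebraMap F (Matrix (Fin n) (Fin n) F) a).map (algebraMap F K)) =
          algebraMap F K a • ψ := by
        ext i
        rw [Matrix.vecMul, dotProduct, Finset.sum_eq_single i]
        · rw [Matrix.map_apply, Matrix.algebraMap_matrix_apply, if_pos rfl, Pi.smul_apply, smul_eq_mul,
            mul_comm]
          rfl
        · intro j _ hj
          rw [Matrix.map_apply, Matrix.algebraMap_matrix_apply, if_neg hj, map_zero, mul_zero]
        · intro hi
          exact absurd (Finset.mem_univ _) hi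
      rw [h3, Matrix.vecMulVec_smul]
      exact Submodule.smul_mem _ _ (hψ w)
    | add M M' _ _ ih ih' =>
      intro ψ hψ w
      rw [Matrix.map_add _ (fun x y => map_add _ x y), Matrix.vecMul_add, Matrix.vecMulVec_add]
      exact Submodule.add_mem _ (ih ψ hψ w) (ih' ψ hψ w)
    | mul M M' _ _ ih ih' =>
      intro ψ hψ w
      rw [Matrix.map_mul, ← Matrix.vecMul_vecMul]
      exact ih' _ (ih ψ hψ) w
  have hφ0 : ∃ j, φ j ≠ 0 := by
    by_contra hcon
    push Not at hcon
    have : φ = 0 := funext hcon
    rw [this, zero_dotProduct] at hf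
    exact zero_ne_one hf
  have hsingle2 : ∀ (i j : Fin n) (w : Fin n → K),
      Matrix.vecMul w ((Matrix.single i j (1 : F)).map (algebraMap F K)) = w i • Pi.single j (1 : K) := by
    intro i j w
    ext k
    rw [Matrix.vecMul, dotProduct, Finset.sum_eq_single i]
    · rw [Matrix.map_apply, Pi.smul_apply, smul_eq_mul]
      by_cases hk : k = j
      · subst hk
        rw [Matrix.single_apply_same, map_one, Pi.single_eq_same]
      · rw [Matrix.single_apply_of_col_ne _ _ (Ne.symm hk), map_zero, Pi.single_eq_of_ne hk, mul_zero]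
    · intro l _ hl
      rw [Matrix.map_apply, Matrix.single_apply_of_row_ne (Ne.symm hl), map_zero, mul_zero]
    · intro hi
      exact absurd (Finset.mem_univ _) hi
  have hall : ∀ (i j : Fin n), Matrix.single i j (1 : K) ∈ G := by
    intro i j
    obtain ⟨l, hl⟩ := hφ0
    have h4 := hV2 (Matrix.single l j 1) φ hW3 (Pi.single i 1)
    rw [hsingle2, Matrix.vecMulVec_smul] at h4
    have h5 := Submodule.smul_mem _ (φ l)⁻¹ h4
    rw [smul_smul, inv_mul_cancel₀ hl, one_smul] at h5
    convert h5 using 1
    ext a b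
    rw [Matrix.vecMulVec_apply]
    by_cases ha : a = i
    · subst ha
      by_cases hb' : b = j
      · subst hb'
        rw [Matrix.single_apply_same, Pi.single_eq_same, Pi.single_eq_same, mul_one]
      · rw [Matrix.single_apply_of_col_ne _ _ (Ne.symm hb'), Pi.single_eq_of_ne hb', mul_zero]
    · rw [Matrix.single_apply_of_row_ne (Ne.symm ha), Pi.single_eq_of_ne ha, zero_mul]
  -- descent
  by_contra hne
  obtain ⟨ℓ, hℓ0, hℓ⟩ := Submodule.exists_le_ker_of_lt_top h (lt_top_iff_ne_top.2 hne)
  apply hℓ0
  let L : Matrix (Fin n) (Fin n) K →ₗ[K] K :=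
    { toFun := fun M => ∑ i, ∑ j, algebraMap F K (ℓ (Matrix.single i j 1)) * M i j
      map_add' := fun M M' => by
        simp only [Matrix.add_apply, mul_add, Finset.sum_add_distrib]
      map_smul' := fun a M => by
        simp only [Matrix.smul_apply, smul_eq_mul, Finset.mul_sum, RingHom.id_apply]
        exact Finset.sum_congr rfl fun i _ => Finset.sum_congr rfl fun j _ => by ring }
  have hL : ∀ M ∈ G, L M = 0 := by
    intro M hM
    induction hM using Submodule.span_induction with
    | mem M hM =>
      obtain ⟨M, hM, rfl⟩ := hM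
      show ∑ i, ∑ j, algebraMap F K (ℓ (Matrix.single i j 1)) * algebraMap F K (M i j) = 0
      have h3 : ℓ M = ∑ i, ∑ j, ℓ (Matrix.single i j 1) * M i j := by
        conv_lhs => rw [Matrix.matrix_eq_sum_single M]
        rw [map_sum]
        refine Finset.sum_congr rfl fun i _ => ?_
        rw [map_sum]
        refine Finset.sum_congr rfl fun j _ => ?_
        have : Matrix.single i j (M i j) = M i j • Matrix.single i j (1 : F) := by
          rw [Matrix.smul_single, smul_eq_mul, mul_one]
        rw [this, map_smul, smul_eq_mul, mul_comm]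
      have h4 : ℓ M = 0 := hℓ hM
      rw [h3] at h4
      have h5 := congrArg (algebraMap F K) h4
      rw [map_zero] at h5
      simpa only [map_sum, map_mul] using h5
    | zero => exact map_zero L
    | add x y _ _ hx hy => rw [map_add, hx, hy, add_zero]
    | smul a x _ hx => rw [map_smul, hx, smul_zero]
  have hℓs : ∀ i j, ℓ (Matrix.single i j 1) = 0 := by
    intro i j
    have h3 := hL _ (hall i j)
    have h4 : L (Matrix.single i j 1) = algebraMap F K (ℓ (Matrix.single i j 1)) := by
      show ∑ a, ∑ b, algebraMap F K (ℓ (Matrix.single a b 1)) * (Matrix.single i j (1 : K)) a b = _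
      rw [Finset.sum_eq_single i, Finset.sum_eq_single j]
      · rw [Matrix.single_apply_same, mul_one]
      · intro b _ hb'
        rw [Matrix.single_apply_of_col_ne _ _ (Ne.symm hb'), mul_zero]
      · intro hi
        exact absurd (Finset.mem_univ _) hi
      · intro a _ ha
        refine Finset.sum_eq_zero fun b _ => ?_
        rw [Matrix.single_apply_of_row_ne (Ne.symm ha), mul_zero]
      · intro hi
        exact absurd (Finset.mem_univ _) hi
    rw [h4] at h3
    exact (map_eq_zero _).1 h3
  apply LinearMap.ext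
  intro M
  rw [Matrix.matrix_eq_sum_single M, map_sum, LinearMap.zero_apply]
  refine Finset.sum_eq_zero fun i _ => ?_
  rw [map_sum]
  refine Finset.sum_eq_zero fun j _ => ?_
  have : Matrix.single i j (M i j) = M i j • Matrix.single i j (1 : F) := by
    rw [Matrix.smul_single, smul_eq_mul, mul_one]
  rw [this, map_smul, hℓs, smul_zero]

end Rank

theorem la : Pool.Agent.E8helper42.AZ.S_LA := by
  intro n F K K₀ _ _ _ _ _ _ h hbr hirr hN hP
  obtain ⟨f, φ, hf, hP⟩ := hP
  have hn : 0 < n := by
    by_contra hn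
    have : n = 0 := by omega
    subst this
    obtain ⟨N, -, -, h1⟩ := hN
    exact h1 (Subsingleton.elim _ _)
  exact rank_one hbr (adjoin_eq_top hn hirr (fun c hc => scalar_of_comm hirr hN c hc)) hf hP

end Pool.Agent.E8helper37.AZ
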